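import Pool.Agent.Helper92.FR.GoalsA

/-!
# FR, packet EV1: the exact sum approximates the volume of the slice
-/

namespace Pool.Agent.Helper1.FR

open Pool.Agent.Helper92.FR MeasureTheory

theorem det_ne_zero_of_nor {N d : ℕ} (C : Fin N → Fin d → ℝ) (S lam : Fin d → ℝ)
    (T : Matrix (Fin d) (Fin d) ℝ) (h : Nor C S lam T) : T.det ≠ 0 := by
  obtain ⟨v, hv, hT⟩ := h
  intro h0
  have h1 := congrArg Matrix.det hT
  rw [Matrix.det_mul, Matrix.det_mul, h0, zero_mul, zero_mul, Matrix.det_diagonal] at h1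
  have h2 : ∏ i, v i ≠ 0 := Finset.prod_ne_zero_iff.2 fun i _ => by
    have := (hv i).1
    positivity
  exact h2 h1.symm

theorem ev1 (hTRQ : TrqStmt) (hDENS : DensStmt) (hLCP : LcpStmt) (hMOM : MomStmt)
    (hSUP : SupStmt) (hANA : AnaStmt) (hCHF : ChfStmt) : Ev1Stmt := by
  intro N d q X C S e lam T hd hq hX hS hNor hg
  have hdet : T.det ≠ 0 := det_ne_zero_of_nor C S lam T hNor
  have hX1 : 1 ≤ X := by
    refine le_trans ?_ hX
    have : 0 < d * (Nat.log 2 (N + d) + 2) * q := by positivity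
    exact this
  have hXR : (1 : ℝ) ≤ X := by exact_mod_cast hX1
  obtain ⟨hlc, hmeas, hnn⟩ := hLCP N d C S e lam T hS hdet
  have hdens := hDENS N d C S e lam T hS hdet
  have hmom := hMOM N d C S e lam T hNor
  have hsup := hSUP N d C S e lam T hNor
  rw [hdens] at hmom hsup
  obtain ⟨ha1, ha2⟩ := hANA d (N + d) q X hd (by omega) hq hX (pp C S e lam T) _ hmeas hnn hlc
    hmom hg (fun A hA => by
      have := hsup A hA
      push_cast
      exact this)
  have hchf := hCHF N d C S e lam T (1 / (200 * (X : ℝ) ^ 2)) (10 ^ 30 * X ^ 12) (by positivity)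
    (by
      have : 0 < 10 ^ 30 * X ^ 12 := by positivity
      exact this)
  rw [hdens] at hchf
  -- positivity of MM
  have hMneg : ∀ b : ℝ, 0 ≤ b → 0 < MM (-b) := by
    intro b hb
    exact lt_of_lt_of_le (by positivity) (hTRQ.2.2 b hb).1
  have hMpos : ∀ a : ℝ, 0 < MM a := by
    intro a
    rw [hTRQ.1 a]
    exact mul_pos (Real.exp_pos _) (hMneg _ (abs_nonneg a))
  obtain ⟨Z, hZ⟩ : ∃ Z : ℝ, Z = (∏ j, MM (aa C S lam j)) * Real.exp (-∑ i, lam i * e i) :=
    ⟨_, rfl⟩
  have hprod : 0 < ∏ j, MM (aa C S lam j) := Finset.prod_pos fun j _ => hMpos _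
  have hZ0 : 0 < Z := hZ ▸ mul_pos hprod (Real.exp_pos _)
  have hZ' : Z = Real.exp (Eex C S e lam) * ∏ j, MM (-|aa C S lam j|) := by
    rw [hZ, Eex, sub_eq_add_neg, Real.exp_add, Real.exp_sum]
    have : ∏ j, MM (aa C S lam j) =
        (∏ j, Real.exp (max (aa C S lam j) 0)) * ∏ j, MM (-|aa C S lam j|) := by
      rw [← Finset.prod_mul_distrib]
      exact Finset.prod_congr rfl fun j _ => hTRQ.1 _
    rw [this]
    ring
  -- the value at zero
  have hdabs : 0 < |T.det| := abs_pos.2 hdet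
  have hpp : pp C S e lam T 0 =
      Real.exp (∑ i, lam i * e i) * ff C S e / ((∏ j, MM (aa C S lam j)) * |T.det|) := by
    rw [pp]
    simp only [Matrix.mulVec_zero, Pi.zero_apply, add_zero]
  have hff : ff C S e = |T.det| * pp C S e lam T 0 * Z := by
    rw [hpp, hZ, Real.exp_neg]
    field_simp
  obtain ⟨J, hJ⟩ : ∃ J : ℝ, J = ∫ y, TH (1 / (200 * (X : ℝ) ^ 2)) (10 ^ 30 * X ^ 12) y
      ∂(volume.withDensity fun y => ENNReal.ofReal (pp C S e lam T y)) := ⟨_, rfl⟩
  rw [← hJ] at ha2 hchf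
  rw [← hZ] at hchf
  constructor
  · rw [hff, mul_assoc (|T.det| * plow d), ← hZ']
    exact mul_le_mul_of_nonneg_right (mul_le_mul_of_nonneg_left ha1 hdabs.le) hZ0.le
  · have hre := congrArg Complex.re hchf
    rw [← Complex.ofReal_mul, Complex.ofReal_re, Complex.re_ofReal_mul] at hre
    have e1 : |T.det| * (1 / (200 * (X : ℝ) ^ 2) / (2 * Real.pi)) ^ d *
        (∑ k ∈ grid (10 ^ 30 * X ^ 12),
          summand C S e lam T (1 / (200 * (X : ℝ) ^ 2)) (10 ^ 30 * X ^ 12) k).re =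
        |T.det| * (J * Z) := by
      rw [hre]
      ring
    rw [e1, hff]
    have e2 : |T.det| * (J * Z) - |T.det| * pp C S e lam T 0 * Z =
        |T.det| * Z * (J - pp C S e lam T 0) := by ring
    rw [e2, abs_mul, abs_of_nonneg (mul_nonneg hdabs.le hZ0.le)]
    calc |T.det| * Z * |J - pp C S e lam T 0|
        ≤ |T.det| * Z * (pp C S e lam T 0 / (8 * q)) :=
          mul_le_mul_of_nonneg_left ha2 (mul_nonneg hdabs.le hZ0.le)
      _ = |T.det| * pp C S e lam T 0 * Z / (8 * q) := by ring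

end Pool.Agent.Helper1.FR
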