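import Pool.Agent.Helper92.FR.GoalsB

/-! # FR / EXS, QTL, PIL (MP_481f43_lc): the exponential series, the approximation of `QQ` and of
`π` -/

set_option linter.unusedVariables false

namespace Pool.Agent.Helper1.FR.EXS

open MeasureTheory Pool.Agent.Helper81.CC Pool.Agent.Bin Pool.Agent.Helper92.FR

theorem val_invNat {n : ℕ} (hn : 1 ≤ n) : Qn.val (invNat n) = 1 / (n : ℝ) := by
  unfold invNat Qn.val
  simp only [BN.val_sub, BN.val_ofNat]
  rw [Nat.cast_sub hn]
  push_cast
  ring

theorem val_qNat (n : ℕ) : Qn.val (qNat n) = n := by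
  unfold qNat
  rw [Qn.val_ofBN, BN.val_ofNat]

theorem val_cpf (z : Cn) (k : ℕ) : Cn.val (cpf z k) = Cn.val z ^ k / (k.factorial : ℂ) := by
  unfold cpf
  rw [Cn.val_prod, List.map_map]
  induction k with
  | zero => simp
  | succ k ih =>
    rw [List.range_succ, List.map_append, List.prod_append, ih]
    simp only [List.map_cons, List.map_nil, List.prod_cons, List.prod_nil, mul_one,
      Function.comp_apply, Cn.val_mul, Cn.val_ofQ]
    rw [val_invNat (by omega), Nat.factorial_succ]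
    push_cast
    have h1 : (k.factorial : ℂ) ≠ 0 := by exact_mod_cast k.factorial_ne_zero
    have h2 : (k : ℂ) + 1 ≠ 0 := Nat.cast_add_one_ne_zero k
    field_simp
    try ring

theorem list_sum_range {M : Type} [AddCommMonoid M] (n : ℕ) (f : ℕ → M) :
    ((List.range n).map f).sum = ∑ k ∈ Finset.range n, f k := by
  induction n with
  | zero => simp
  | succ n ih => rw [List.range_succ, List.map_append, List.sum_append, ih,
      Finset.sum_range_succ]; simp

theorem val_cexpT (K : ℕ) (z : Cn) : Cn.val (cexpT K z) =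
    ∑ k ∈ Finset.range K, Cn.val z ^ k / (k.factorial : ℂ) := by
  unfold cexpT
  rw [Cn.val_sum, List.map_map, list_sum_range]
  exact Finset.sum_congr rfl fun k _ => val_cpf z k

/-- the remainder of the exponential series -/
theorem rem_le {K : ℕ} {r : ℝ} (hr : 0 ≤ r) (h : 6 * r ≤ K) (hK : 1 ≤ K) :
    r ^ K / (K.factorial : ℝ) ≤ 1 / 2 ^ K := by
  have hK0 : (0 : ℝ) < K := by exact_mod_cast hK
  have h1 : r ^ K ≤ ((K : ℝ) / 6) ^ K := pow_le_pow_left₀ hr (by linarith) K
  have h2 := Real.pow_div_factorial_le_exp (K : ℝ) hK0.le K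
  have hf : (0 : ℝ) < K.factorial := by exact_mod_cast K.factorial_pos
  have h3 : Real.exp K ≤ 3 ^ K := by
    rw [← mul_one (K : ℝ), Real.exp_nat_mul]
    exact pow_le_pow_left₀ (Real.exp_pos _).le (Real.exp_one_lt_d9.le.trans (by norm_num)) K
  calc r ^ K / (K.factorial : ℝ) ≤ ((K : ℝ) / 6) ^ K / K.factorial := by gcongr
    _ = (1 / 6) ^ K * ((K : ℝ) ^ K / K.factorial) := by rw [div_pow, div_pow, one_pow]; ring
    _ ≤ (1 / 6) ^ K * 3 ^ K := by gcongr; exact h2.trans h3
    _ = 1 / 2 ^ K := by rw [← mul_pow, ← one_div_pow]; norm_num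

theorem exp_err {z : ℂ} {r : ℝ} {K : ℕ} (hz : ‖z‖ ≤ r) (h : 6 * r ≤ K) (hK : 1 ≤ K) :
    ‖Complex.exp z - ∑ k ∈ Finset.range K, z ^ k / (k.factorial : ℂ)‖ ≤ 2 / 2 ^ K := by
  have hK0 : (0 : ℝ) < K := by exact_mod_cast hK
  have hr : 0 ≤ r := (norm_nonneg z).trans hz
  have h1 : ‖z‖ / (K.succ : ℝ) ≤ 1 / 2 := by
    rw [div_le_iff₀ (by positivity)]
    push_cast
    linarith
  refine (Complex.exp_bound' h1).trans ?_
  have h2 : ‖z‖ ^ K / (K.factorial : ℝ) ≤ 1 / 2 ^ K :=
    rem_le (norm_nonneg z) (by linarith) hK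
  calc ‖z‖ ^ K / (K.factorial : ℝ) * 2 ≤ 1 / 2 ^ K * 2 := by gcongr
    _ = 2 / 2 ^ K := by ring

theorem exs : ExsStmt := by
  intro P K z hK
  have hK1 : (1 : ℝ) ≤ K := by
    have : 0 ≤ 6 * ‖Cn.val z‖ := by positivity
    have : (0 : ℝ) ≤ P := by positivity
    linarith
  have hK1' : 1 ≤ K := by exact_mod_cast hK1
  rw [val_cexpT, ← norm_neg, neg_sub]
  have hP0 : (0 : ℝ) ≤ P := by positivity
  refine (exp_err le_rfl (by linarith) hK1').trans ?_
  have hPK : P + 1 ≤ K := by
    have : ((P + 1 : ℕ) : ℝ) ≤ K := by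
      push_cast
      have : 0 ≤ 6 * ‖Cn.val z‖ := by positivity
      linarith
    exact_mod_cast this
  calc (2 : ℝ) / 2 ^ K ≤ 2 / 2 ^ (P + 1) := by
        gcongr
        norm_num
    _ = 1 / 2 ^ P := by rw [pow_succ]; field_simp

theorem val_qtil_small (K : ℕ) (z : Cn) :
    Cn.val (Cn.sum ((List.range K).map fun k => Cn.mul (cpf (Cn.neg z) k)
      (Cn.ofQ (invNat (k + 1))))) =
    ∑ k ∈ Finset.range K, (-Cn.val z) ^ k / (k.factorial : ℂ) * (1 / ((k : ℂ) + 1)) := by
  rw [Cn.val_sum, List.map_map, list_sum_range]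
  refine Finset.sum_congr rfl fun k _ => ?_
  simp only [Function.comp_apply, Cn.val_mul, Cn.val_ofQ, val_cpf, Cn.val_neg]
  rw [val_invNat (by omega)]
  push_cast
  rfl

theorem QQ_eq {ζ : ℂ} (h : ζ ≠ 0) : QQ ζ = (1 - Complex.exp (-ζ)) / ζ := by
  unfold QQ
  rw [integral_exp_mul_complex (neg_ne_zero.2 h)]
  simp
  field_simp
  ring

theorem qtl (hexs : ExsStmt) (htrq : TrqStmt) : QtlStmt := by
  intro P K b z hP hb hre hK
  obtain ⟨-, -, h3⟩ := htrq
  obtain ⟨hM, -, -, -, -, -, -⟩ := h3 (Qn.val b) hb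
  have hP1 : (1 : ℝ) ≤ P := by exact_mod_cast hP
  by_cases hbP : (P : ℝ) ≤ Qn.val b
  · -- large real part
    have h1 : qtil P K b z = Cn.inv z := by
      unfold qtil
      rw [if_pos ((Qn.le_iff _ _).2 (by rw [val_qNat]; exact hbP))]
    rw [h1, Cn.val_inv]
    have hb1 : 1 ≤ Qn.val b := hP1.trans hbP
    have hz : Cn.val z ≠ 0 := by
      intro h
      rw [h, Complex.zero_re] at hre
      linarith
    rw [QQ_eq hz]
    have h2 : (Cn.val z)⁻¹ - (1 - Complex.exp (-Cn.val z)) / Cn.val z =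
        Complex.exp (-Cn.val z) / Cn.val z := by
      field_simp
      ring
    rw [h2, norm_div, Complex.norm_exp, Complex.neg_re, hre]
    have h4 : Qn.val b ≤ ‖Cn.val z‖ := by
      rw [← hre]
      exact (le_abs_self _).trans (Complex.abs_re_le_norm _)
    have hb0 : 0 < Qn.val b := by linarith
    have h5 : Real.exp (-Qn.val b) ≤ 1 / 2 ^ P := by
      have h6 : Real.exp (-Qn.val b) ≤ Real.exp (-(P : ℝ)) := Real.exp_le_exp.2 (by linarith)
      refine h6.trans ?_
      rw [Real.exp_neg, one_div]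
      refine inv_anti₀ (by positivity) ?_
      rw [← mul_one (P : ℝ), Real.exp_nat_mul]
      exact pow_le_pow_left₀ (by norm_num) (by
        have := Real.add_one_le_exp (1 : ℝ)
        linarith) P
    calc Real.exp (-Qn.val b) / ‖Cn.val z‖ ≤ (1 / 2 ^ P) / Qn.val b := by gcongr
      _ ≤ (1 / 2 ^ P) * (2 * (1 / (1 + Qn.val b))) := by
          rw [div_eq_mul_one_div (1 / 2 ^ P : ℝ)]
          refine mul_le_mul_of_nonneg_left ?_ (by positivity)
          rw [mul_one_div, div_le_div_iff₀ hb0 (by linarith)]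
          linarith
      _ ≤ (1 / 2 ^ P) * (2 * MM (-Qn.val b)) := by gcongr
      _ = 2 / 2 ^ P * MM (-Qn.val b) := by ring
  · -- small real part
    push Not at hbP
    have hK' := hK hbP
    have h1 : qtil P K b z = Cn.sum ((List.range K).map fun k => Cn.mul (cpf (Cn.neg z) k)
        (Cn.ofQ (invNat (k + 1)))) := by
      unfold qtil
      rw [if_neg]
      rw [Qn.le_iff, val_qNat]
      exact not_le.2 hbP
    rw [h1, val_qtil_small]
    set ζ := Cn.val z with hζ
    have hn0 : 0 ≤ ‖ζ‖ := norm_nonneg _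
    have hK1 : 2 * P + 2 ≤ K := by
      have : ((2 * P + 2 : ℕ) : ℝ) ≤ K := by push_cast; linarith
      exact_mod_cast this
    -- the partial sums as an integral
    have h2 : ∑ k ∈ Finset.range K, (-ζ) ^ k / (k.factorial : ℂ) * (1 / ((k : ℂ) + 1)) =
        ∫ x in (0 : ℝ)..1, ∑ k ∈ Finset.range K, (-ζ * x) ^ k / (k.factorial : ℂ) := by
      rw [intervalIntegral.integral_finsetSum]
      · refine Finset.sum_congr rfl fun k _ => ?_
        have e1 : (fun x : ℝ => (-ζ * (x : ℂ)) ^ k / (k.factorial : ℂ)) =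
            fun x : ℝ => ((-ζ) ^ k / (k.factorial : ℂ)) * ((x : ℂ) ^ k) := by
          ext x
          rw [mul_pow]; ring
        rw [e1, intervalIntegral.integral_const_mul]
        congr 1
        have e2 : (fun x : ℝ => (x : ℂ) ^ k) = fun x : ℝ => ((x ^ k : ℝ) : ℂ) := by
          ext x; push_cast; rfl
        rw [e2, intervalIntegral.integral_ofReal, integral_pow]
        simp
      · intro k _
        exact Continuous.intervalIntegrable (by fun_prop) _ _
    rw [h2, ← norm_neg, neg_sub]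
    unfold QQ
    rw [← intervalIntegral.integral_sub
      (Continuous.intervalIntegrable (by fun_prop) _ _)
      (Continuous.intervalIntegrable (by fun_prop) _ _)]
    have h3 : ‖∫ x in (0 : ℝ)..1, (Complex.exp (-ζ * x) -
        ∑ k ∈ Finset.range K, (-ζ * x) ^ k / (k.factorial : ℂ))‖ ≤ 2 / 2 ^ K * |(1 : ℝ) - 0| := by
      refine intervalIntegral.norm_integral_le_of_norm_le_const fun x hx => ?_
      rw [Set.uIoc_of_le zero_le_one] at hx
      refine exp_err (r := ‖ζ‖) ?_ (by linarith [show (0 : ℝ) ≤ P by positivity]) (by omega)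
      rw [norm_mul, norm_neg, Complex.norm_real, Real.norm_eq_abs, abs_of_pos hx.1]
      nlinarith [hx.2]
    refine h3.trans ?_
    rw [sub_zero, abs_one, mul_one]
    have h4 : (2 : ℝ) / 2 ^ K ≤ 2 / 2 ^ (2 * P) := by
      gcongr
      · norm_num
      · omega
    refine h4.trans ?_
    have h5 : 1 / 2 ^ P ≤ MM (-Qn.val b) := by
      refine le_trans ?_ hM
      refine one_div_le_one_div_of_le (by linarith) ?_
      have h6 : ((P + 1 : ℕ) : ℝ) ≤ 2 ^ P := by
        exact_mod_cast (Nat.lt_two_pow_self : P < 2 ^ P)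
      push_cast at h6
      linarith
    calc (2 : ℝ) / 2 ^ (2 * P) = 2 / 2 ^ P * (1 / 2 ^ P) := by
          rw [two_mul, pow_add]; field_simp
      _ ≤ 2 / 2 ^ P * MM (-Qn.val b) := by gcongr

theorem pil : PilStmt := by
  intro n
  have h1 : Qn.val (piT n) = 4 * ∑ k ∈ Finset.range n, (-1 : ℝ) ^ k * (1 / (2 * k + 1)) := by
    unfold piT
    rw [Qn.val_sum, List.map_map, list_sum_range, Finset.mul_sum]
    refine Finset.sum_congr rfl fun k _ => ?_
    simp only [Function.comp_apply]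
    split_ifs with h
    · have h2 : (-1 : ℝ) ^ k = 1 := Even.neg_one_pow (Nat.even_iff.2 h)
      rw [h2]
      simp only [Qn.val, BN.val_ofNat]
      push_cast
      ring
    · have h2 : (-1 : ℝ) ^ k = -1 := Odd.neg_one_pow (Nat.odd_iff.2 (by omega))
      rw [h2]
      simp only [Qn.val, BN.val_ofNat]
      push_cast
      ring
  have hlim : Filter.Tendsto (fun n => ∑ i ∈ Finset.range n, (-1 : ℝ) ^ i * (1 / (2 * i + 1)))
      Filter.atTop (nhds (Real.pi / 4)) := by
    have := Real.tendsto_sum_pi_div_four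
    simpa only [mul_one_div] using this
  have hanti : Antitone (fun k : ℕ => (1 : ℝ) / (2 * k + 1)) := by
    intro a b hab
    have : (a : ℝ) ≤ b := by exact_mod_cast hab
    exact one_div_le_one_div_of_le (by positivity) (by linarith)
  have upper := hanti.alternating_series_le_tendsto hlim
  have lower := hanti.tendsto_le_alternating_series hlim
  have key : |Real.pi / 4 - ∑ k ∈ Finset.range n, (-1 : ℝ) ^ k * (1 / (2 * k + 1))| ≤
      1 / (2 * n + 1) := by
    obtain (h | h) := Nat.even_or_odd n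
    · obtain ⟨m, rfl⟩ := even_iff_exists_two_mul.mp h
      have u := upper m
      have l := lower m
      rw [Finset.sum_range_succ, Even.neg_one_pow (even_two_mul m), one_mul] at l
      rw [abs_le]
      constructor
      · have : (0 : ℝ) ≤ 1 / (2 * ((2 * m : ℕ) : ℝ) + 1) := by positivity
        linarith
      · linarith
    · obtain ⟨m, rfl⟩ := h
      have u := upper (m + 1)
      have l := lower m
      rw [show 2 * (m + 1) = 2 * m + 1 + 1 by ring, Finset.sum_range_succ,
        Odd.neg_one_pow (⟨m, rfl⟩ : Odd (2 * m + 1))] at u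
      rw [abs_le]
      constructor
      · linarith
      · have : (0 : ℝ) ≤ 1 / (2 * ((2 * m + 1 : ℕ) : ℝ) + 1) := by positivity
        linarith
  rw [h1]
  have h2 : 4 * ∑ k ∈ Finset.range n, (-1 : ℝ) ^ k * (1 / (2 * (k : ℝ) + 1)) - Real.pi =
      -(4 * (Real.pi / 4 - ∑ k ∈ Finset.range n, (-1 : ℝ) ^ k * (1 / (2 * (k : ℝ) + 1)))) := by
    ring
  rw [h2, abs_neg, abs_mul, abs_of_pos (by norm_num : (0 : ℝ) < 4)]
  calc 4 * |Real.pi / 4 - ∑ k ∈ Finset.range n, (-1 : ℝ) ^ k * (1 / (2 * (k : ℝ) + 1))| ≤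
      4 * (1 / (2 * n + 1)) := by gcongr
    _ = 4 / (2 * n + 1) := by ring

end Pool.Agent.Helper1.FR.EXS
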