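import Pool.Agent.Helper92.FR.GoalsA

/-!
# FR, packet LIP: a log-concave function between two positive bounds
-/

namespace Pool.Agent.Helper1.FR

open Pool.Agent.Helper92.FR MeasureTheory

theorem lip : LipStmt := by
  intro d p c B hLC hc hlow hup y hy
  have hy0 : 0 ≤ ∑ i, y i ^ 2 := Finset.sum_nonneg fun i _ => sq_nonneg _
  have h0 : c ≤ p 0 := hlow 0 (by simp)
  have hp0 : 0 < p 0 := hc.trans_le h0
  have hB : 0 < B := hp0.trans_le (hup 0)
  have hlogBc : Real.log (B / c) = Real.log B - Real.log c := Real.log_div hB.ne' hc.ne'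
  have hA : 0 ≤ Real.log (B / c) := by
    apply Real.log_nonneg
    rw [le_div_iff₀ hc, one_mul]
    exact h0.trans (hup 0)
  have hpy : 0 < p y := hc.trans_le (hlow y hy)
  have l1 : Real.log (p 0) ≤ Real.log B := Real.log_le_log hp0 (hup 0)
  have l2 : Real.log c ≤ Real.log (p 0) := Real.log_le_log hc h0
  -- it is enough to compare the logarithms
  suffices hs : Real.log (p 0) - Real.log (B / c) * (10 ^ 6 * Real.sqrt (∑ i, y i ^ 2)) ≤
      Real.log (p y) ∧ Real.log (p y) ≤
      Real.log (p 0) + Real.log (B / c) * (10 ^ 6 * Real.sqrt (∑ i, y i ^ 2)) by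
    constructor
    · have := Real.exp_le_exp.2 hs.1
      rwa [sub_eq_add_neg, Real.exp_add, Real.exp_log hp0, Real.exp_log hpy] at this
    · have := Real.exp_le_exp.2 hs.2
      rwa [Real.exp_add, Real.exp_log hp0, Real.exp_log hpy] at this
  obtain ⟨s, hs⟩ : ∃ s : ℝ, s = 10 ^ 6 * Real.sqrt (∑ i, y i ^ 2) := ⟨_, rfl⟩
  rw [← hs]
  have hs0 : 0 ≤ s := by rw [hs]; positivity
  have hss : s ^ 2 = 10 ^ 12 * ∑ i, y i ^ 2 := by
    rw [hs, mul_pow, Real.sq_sqrt hy0]; norm_num
  have hs1 : s ≤ 1 := by
    have : s ^ 2 ≤ 1 ^ 2 := by rw [hss]; linarith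
    exact (pow_le_pow_iff_left₀ hs0 zero_le_one two_ne_zero).1 this
  rcases hs0.eq_or_lt with h | hspos
  · -- y = 0
    have hz : ∑ i, y i ^ 2 = 0 := by
      have : s ^ 2 = 0 := by rw [← h]; norm_num
      rw [hss] at this
      linarith
    have hy : y = 0 := by
      funext i
      have := (Finset.sum_eq_zero_iff_of_nonneg fun i _ => sq_nonneg (y i)).1 hz i
        (Finset.mem_univ i)
      exact pow_eq_zero_iff two_ne_zero |>.1 this
    rw [← h, hy, mul_zero, sub_zero, add_zero]
    exact ⟨le_refl _, le_refl _⟩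
  -- the direction
  have hu : ∑ i, ((1 / s) * y i) ^ 2 ≤ 1 / 10 ^ 12 := by
    simp_rw [mul_pow]
    rw [← Finset.mul_sum]
    have : ∑ i, y i ^ 2 = s ^ 2 / 10 ^ 12 := by rw [hss]; norm_num
    rw [this, one_div, inv_pow]
    apply le_of_eq
    field_simp
  have hu' : ∑ i, (-((1 / s) * y i)) ^ 2 ≤ 1 / 10 ^ 12 := by
    simpa only [neg_sq] using hu
  have pu := hlow (fun i => (1 / s) * y i) hu
  have pu' := hlow (fun i => -((1 / s) * y i)) hu'
  constructor
  · rcases hs1.eq_or_lt with h1 | h1
    · rw [h1, mul_one, hlogBc]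
      have := Real.log_le_log hc (hlow y hy)
      linarith
    · have h2 := hLC 0 (fun i => (1 / s) * y i) s hspos h1
      have e1 : (fun i => (1 - s) * (0 : Fin d → ℝ) i + s * ((1 / s) * y i)) = y := by
        funext i
        rw [Pi.zero_apply, mul_zero, zero_add, ← mul_assoc, mul_one_div_cancel hspos.ne', one_mul]
      rw [e1] at h2
      have hpu : 0 < p (fun i => (1 / s) * y i) := hc.trans_le pu
      have h3 := Real.log_le_log (by positivity) h2
      rw [Real.log_mul (by positivity) (by positivity), Real.log_rpow hp0, Real.log_rpow hpu] at h3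
      have h4 : Real.log c ≤ Real.log (p fun i => (1 / s) * y i) := Real.log_le_log hc pu
      rw [hlogBc]
      nlinarith
  · have h2 := hLC y (fun i => -((1 / s) * y i)) (s / (1 + s)) (by positivity)
      (by rw [div_lt_one (by positivity)]; linarith)
    have e1 : (fun i => (1 - s / (1 + s)) * y i + s / (1 + s) * (-((1 / s) * y i))) = 0 := by
      funext i
      rw [Pi.zero_apply]
      field_simp
      ring
    rw [e1] at h2
    have hpu : 0 < p (fun i => -((1 / s) * y i)) := hc.trans_le pu'
    have h3 := Real.log_le_log (by positivity) h2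
    rw [Real.log_mul (by positivity) (by positivity), Real.log_rpow hpy, Real.log_rpow hpu] at h3
    have h4 : Real.log c ≤ Real.log (p fun i => -((1 / s) * y i)) := Real.log_le_log hc pu'
    have e2 : (1 - s / (1 + s)) = 1 / (1 + s) := by field_simp; ring
    rw [e2, div_mul_eq_mul_div, div_mul_eq_mul_div, ← add_div, div_le_iff₀ (by positivity)] at h3
    rw [hlogBc]
    nlinarith

end Pool.Agent.Helper1.FR
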