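import Pool.Agent.Helper92.FR.GoalsA

/-!
# FR, packet TAIL: exponential tails from exponential moments
-/

namespace Pool.Agent.Helper1.FR

open Pool.Agent.Helper92.FR MeasureTheory

theorem one_side {d : ℕ} (P : Measure (Fin d → ℝ)) (m : Fin d → ℝ) (hM : Mom P m) (i : Fin d)
    (s : ℝ) (hs : s ^ 2 = 1 / 16) (c : ℝ) :
    P.real {y | c ≤ 4 * (s * (y i - m i))} ≤ 4 * Real.exp (-c / 4) := by
  obtain ⟨hP, hexp, -⟩ := hM
  have hth : ∑ j, (Pi.single i s : Fin d → ℝ) j ^ 2 = 1 / 16 := by
    rw [Finset.sum_eq_single i (fun j _ hj => by rw [Pi.single_eq_of_ne hj]; norm_num)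
      (fun h => absurd (Finset.mem_univ i) h), Pi.single_eq_same, hs]
  have hsum : ∀ y : Fin d → ℝ, ∑ j, (Pi.single i s : Fin d → ℝ) j * (y j - m j) =
      s * (y i - m i) := by
    intro y
    rw [Finset.sum_eq_single i (fun j _ hj => by rw [Pi.single_eq_of_ne hj, zero_mul])
      (fun h => absurd (Finset.mem_univ i) h), Pi.single_eq_same]
  obtain ⟨hint, hle⟩ := hexp (Pi.single i s) hth.le
  simp_rw [hsum] at hint hle
  rw [hth] at hle
  have hset : {y : Fin d → ℝ | c ≤ 4 * (s * (y i - m i))} =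
      {y | Real.exp (c / 4) ≤ Real.exp (s * (y i - m i))} := by
    ext y
    simp only [Set.mem_setOf_eq, Real.exp_le_exp]
    constructor <;> intro h <;> linarith
  have hmk := mul_meas_ge_le_integral_of_nonneg (μ := P)
    (f := fun y : Fin d → ℝ => Real.exp (s * (y i - m i)))
    (Filter.Eventually.of_forall fun y => (Real.exp_pos _).le) hint (Real.exp (c / 4))
  rw [hset]
  have h4 : Real.exp (18 * (1 / 16)) ≤ 4 := by
    have h1 : Real.exp (18 * (1 / 16)) = Real.exp 1 * Real.exp (1 / 8) := by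
      rw [← Real.exp_add]; norm_num
    have h2 : Real.exp 1 < 2.7182818286 := Real.exp_one_lt_d9
    have h3 : Real.exp (1 / 8) ≤ 8 / 7 := by
      have := Real.one_sub_le_exp_neg (1 / 8 : ℝ)
      rw [Real.exp_neg] at this
      have h5 : (7 / 8 : ℝ) ≤ (Real.exp (1 / 8))⁻¹ := by linarith
      have h6 := inv_anti₀ (by norm_num : (0 : ℝ) < 7 / 8) h5
      rw [inv_inv] at h6
      linarith
    rw [h1]
    have := Real.exp_pos 1
    nlinarith [Real.exp_pos (1 / 8 : ℝ)]
  have h5 : Real.exp (c / 4) * P.real {y : Fin d → ℝ | Real.exp (c / 4) ≤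
      Real.exp (s * (y i - m i))} ≤ 4 := hmk.trans (hle.trans h4)
  have h6 : Real.exp (-c / 4) * Real.exp (c / 4) = 1 := by
    rw [← Real.exp_add]; simp [neg_div]
  calc P.real {y : Fin d → ℝ | Real.exp (c / 4) ≤ Real.exp (s * (y i - m i))}
      = Real.exp (-c / 4) * (Real.exp (c / 4) *
          P.real {y : Fin d → ℝ | Real.exp (c / 4) ≤ Real.exp (s * (y i - m i))}) := by
        rw [← mul_assoc, h6, one_mul]
    _ ≤ Real.exp (-c / 4) * 4 := mul_le_mul_of_nonneg_left h5 (Real.exp_pos _).le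
    _ = 4 * Real.exp (-c / 4) := mul_comm _ _

theorem tail : TailStmt := by
  intro d P m hM hm R hR
  have hP := hM.1
  have hmi : ∀ i, |m i| ≤ 1 := by
    intro i
    have h1 : m i ^ 2 ≤ ∑ i, m i ^ 2 :=
      Finset.single_le_sum (f := fun i => m i ^ 2) (fun i _ => sq_nonneg _) (Finset.mem_univ i)
    rw [← sq_le_one_iff_abs_le_one]
    norm_num at hm
    linarith
  change P.real _ ≤ _
  calc P.real {y | ∃ i, R < |y i|}
      ≤ P.real (⋃ i, ({y : Fin d → ℝ | R - 1 ≤ 4 * (1 / 4 * (y i - m i))} ∪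
          {y : Fin d → ℝ | R - 1 ≤ 4 * (-(1 / 4) * (y i - m i))})) := by
        apply measureReal_mono _ (measure_ne_top _ _)
        rintro y ⟨i, hi⟩
        rw [Set.mem_iUnion]
        refine ⟨i, ?_⟩
        have h1 := abs_le.1 (hmi i)
        rcases lt_abs.1 hi with h | h
        · left
          change R - 1 ≤ 4 * (1 / 4 * (y i - m i))
          linarith
        · right
          change R - 1 ≤ 4 * (-(1 / 4) * (y i - m i))
          linarith
    _ ≤ ∑ i, P.real ({y : Fin d → ℝ | R - 1 ≤ 4 * (1 / 4 * (y i - m i))} ∪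
          {y : Fin d → ℝ | R - 1 ≤ 4 * (-(1 / 4) * (y i - m i))}) :=
        measureReal_iUnion_fintype_le _
    _ ≤ ∑ _i : Fin d, 8 * Real.exp (-(R - 1) / 4) := by
        apply Finset.sum_le_sum
        intro i _
        refine (measureReal_union_le _ _).trans ?_
        have h1 := one_side P m hM i (1 / 4) (by norm_num) (R - 1)
        have h2 := one_side P m hM i (-(1 / 4)) (by norm_num) (R - 1)
        linarith
    _ = 8 * d * Real.exp (-(R - 1) / 4) := by
        rw [Finset.sum_const, Finset.card_univ, Fintype.card_fin, nsmul_eq_mul]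
        ring

end Pool.Agent.Helper1.FR
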